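import Pool.Agent.V5helper55.BF.Clo

/-!
# Correlations of the divisor functions with a power saving, for almost all shifts `v_i w_j + a_i + b_j` with
ARBITRARY integers `a_i`, `b_j`

The definitions of `D`, `main`, `G`, `ram`, `κ`, `𝔖`, `Density`, `Asymp` and `energy` are those of the starting file
`Pool.Agent.Results.MP_122e00_nt.PowerSavingShifts`.

The thin families of shifts of the starting files are given by one thin sequence (polynomial values, automatic sets, …),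
up to one constant. Here the shifts are the entries of a matrix `v_i w_j + a_i + b_j`: two families `v`, `w` of nearly
minimal energy (of any orders) are multiplied, and arbitrary numbers `a_i`, `b_j` are added to the rows and the columns,
for example `φ(x) + ψ(y) + f(x) g(y)` for polynomials `f`, `g`, ARBITRARY functions `φ`, `ψ`, and `x`, `y` in arbitrary
sets of densities `N ^ (-θ)` (so `p ^ 2 q ^ 3 + φ(p) + ψ(q)`, `p`, `q` prime).

Method. The class of the families of nearly minimal energy is closed under this operation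
(`Pool.Agent.V5helper55.BF.closure`; so it can be repeated). The inequality of Cauchy and Schwarz removes `a` and `b`;
two applications of Hölder's inequality bound a high power of the Fourier transform at a frequency `t` by the energies
of `v` and `w` times the sum of `|∑_{|m| ≤ M'} e(t m l)|` over `|l| ≤ L'`. The fourth power mean of this sum over the
frequencies, without the terms `l = 0` and the diagonal, is bounded by the divisor function, and these terms are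
harmless at the frequencies at which the Fourier transform is not small. So the family has an energy of some order which
is nearly minimal, and the criterion of the starting file `PowerSavingShifts` applies.
-/

set_option autoImplicit false

namespace Pool.Agent.Results.MP_122e00_nt.BilinearFamilies

open Finset Polynomial
open Pool.Agent.Results.MP_122e00_nt.PowerSavingShifts (D ram κ 𝔖 Density G main Asymp energy)

/-- The family `v` of integers of absolute value at most `M` has an energy of order `p` which is at most `C` times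
`#ι ^ (2 p) / M`. -/
def Small (p : ℕ) (C : ℝ) (M : ℕ) {ι : Type} [Fintype ι] (v : ι → ℤ) : Prop :=
  (∀ i, |v i| ≤ M) ∧ (energy p v : ℝ) * M ≤ C * (Fintype.card ι : ℝ) ^ (2 * p)

/-- The sizes: `N ^ τ ≤ M, L ≤ B N` and `N ^ (1 - θ) ≤ M L`. -/
def Scales (τ θ : ℝ) (B N M L : ℕ) : Prop :=
  (N : ℝ) ^ τ ≤ M ∧ (N : ℝ) ^ τ ≤ L ∧ M ≤ B * N ∧ L ≤ B * N ∧ (N : ℝ) ^ (1 - θ) ≤ M * L

open Classical in
/-- **Divisor correlations for almost all shifts `v_i w_j + a_i + b_j`, with arbitrary `a_i`, `b_j`.**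

Let `r ≥ 2`. There are polynomials `P_q` (`q ≥ 1`) and `T_h` (`h ≠ 0`) with the following properties.

(0) As in the starting file: `P_q` is the density of `d_r(n) e(b n / q)`, `(b, q) = 1`, with a power saving; for `h ≠ 0` the
series `G_h(u, v) = ∑ c_q(h) P_q(u) P_q(v)` converges absolutely, `y T_h(log y)` has the derivative `G_h(log y, log y)`, and
`T_h` has degree `2 r - 2` and leading coefficient `𝔖_r(h) / ((r - 1)!) ^ 2`.

(1) For all `p`, `q`, `B` and `τ > 0` there is `θ > 0` such that for `0 < η ≤ θ` and all large `N`: if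
`Scales τ θ B N M L`, `Small p (N ^ θ) M v`, `Small q (N ^ θ) L w`, and `a i`, `b j` are ARBITRARY integers such that all
`h = a i + b j + v i * w j` satisfy `|h| ≤ B N`, then all but a proportion `N ^ (-θ)` of the pairs `(i, j)` give `h = 0` or
a shift `h` for which, for ALL `x ≤ N`, the sum `D_r(x; h)` is the main term up to `N ^ (1 - θ)` and, if
`|h| ≤ N ^ (1 - η)`, it is `x T_h(log x)` up to `N ^ (1 - η / 8)`.

(2) Let `f`, `g` be polynomials with integral coefficients of positive degrees `k`, `l`. For all `B` and `τ > 0` there is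
`θ > 0` such that for `0 < η ≤ θ` and all large `N`: let `X, Y ≥ N ^ τ`, `X ^ k, Y ^ l ≤ B N`, `X ^ k Y ^ l ≥ N ^ (1 - θ)`, let
`A`, `A'` be ARBITRARY sets of positive integers up to `X` and `Y` with at least `N ^ (-θ) X` and `N ^ (-θ) Y` elements,
and `φ`, `ψ` ARBITRARY functions with `|φ(x) + ψ(y) + f(x) g(y)| ≤ B N` for `x ∈ A`, `y ∈ A'`. Then all but
`N ^ (-θ) |A| |A'|` of the pairs `(x, y)` in `A × A'` give a shift `h = φ(x) + ψ(y) + f(x) g(y)` with the same property. -/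
theorem result (r : ℕ) (hr : 2 ≤ r) : ∃ (P : ℕ → ℝ[X]) (T : ℤ → ℝ[X]),
    (Density r P ∧ (∀ q, 1 ≤ q → (P q).natDegree = r - 1 ∧ (P q).leadingCoeff = κ (r - 1) q / ((r - 1).factorial : ℝ)) ∧
      ∀ ε : ℝ, 0 < ε → ∃ C : ℝ, ∀ q i : ℕ, 1 ≤ q → |(P q).coeff i| ≤ C * (q : ℝ) ^ (ε - 1)) ∧
    (∀ h : ℤ, h ≠ 0 → (∀ u v : ℝ, Summable (fun q : ℕ => (ram (q + 1) h : ℝ) * ((P (q + 1)).eval u * (P (q + 1)).eval v))) ∧
      (∀ u : ℝ, (T h).eval u + (derivative (T h)).eval u = G P h u u) ∧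
      (T h).natDegree = 2 * r - 2 ∧ (T h).leadingCoeff = 𝔖 r h / ((r - 1).factorial : ℝ) ^ 2) ∧
    (∀ (p q B : ℕ) (τ : ℝ), 0 < τ → ∃ θ : ℝ, 0 < θ ∧ ∀ η : ℝ, 0 < η → η ≤ θ → ∃ N₀ : ℕ, ∀ N : ℕ, N₀ ≤ N →
      ∀ (ι ι' : Type) [Fintype ι] [Fintype ι'] (M L : ℕ) (v a : ι → ℤ) (w b : ι' → ℤ), Scales τ θ B N M L →
      Small p ((N : ℝ) ^ θ) M v → Small q ((N : ℝ) ^ θ) L w → (∀ i j, |a i + b j + v i * w j| ≤ B * N) →
      ((univ.filter (fun z : ι × ι' => a z.1 + b z.2 + v z.1 * w z.2 ≠ 0 ∧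
        ¬ Asymp r N P T θ η (a z.1 + b z.2 + v z.1 * w z.2))).card : ℝ) ≤
          (N : ℝ) ^ (-θ) * Fintype.card (ι × ι')) ∧
    (∀ f g : ℤ[X], 1 ≤ f.natDegree → 1 ≤ g.natDegree → ∀ (B : ℕ) (τ : ℝ), 0 < τ → ∃ θ : ℝ, 0 < θ ∧
      ∀ η : ℝ, 0 < η → η ≤ θ → ∃ N₀ : ℕ, ∀ N : ℕ, N₀ ≤ N → ∀ X Y : ℕ, (N : ℝ) ^ τ ≤ X → (N : ℝ) ^ τ ≤ Y →
      X ^ f.natDegree ≤ B * N → Y ^ g.natDegree ≤ B * N →
      (N : ℝ) ^ (1 - θ) ≤ (X : ℝ) ^ f.natDegree * (Y : ℝ) ^ g.natDegree →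
      ∀ A A' : Finset ℕ, A ⊆ Icc 1 X → A' ⊆ Icc 1 Y → (N : ℝ) ^ (-θ) * X ≤ A.card →
      (N : ℝ) ^ (-θ) * Y ≤ A'.card → ∀ φ ψ : ℕ → ℤ,
      (∀ x ∈ A, ∀ y ∈ A', |φ x + ψ y + f.eval (x : ℤ) * g.eval (y : ℤ)| ≤ B * N) →
      (((A ×ˢ A').filter (fun z : ℕ × ℕ => φ z.1 + ψ z.2 + f.eval (z.1 : ℤ) * g.eval (z.2 : ℤ) ≠ 0 ∧
        ¬ Asymp r N P T θ η (φ z.1 + ψ z.2 + f.eval (z.1 : ℤ) * g.eval (z.2 : ℤ)))).card : ℝ) ≤
          (N : ℝ) ^ (-θ) * (A.card * A'.card)) := by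
  obtain ⟨P, T, hP, hT, hcrit, -⟩ := Pool.Agent.Results.MP_122e00_nt.PowerSavingShifts.result r hr
  have h1 : ∀ (p q B : ℕ) (τ : ℝ), 0 < τ → ∃ θ : ℝ, 0 < θ ∧ ∀ η : ℝ, 0 < η → η ≤ θ → ∃ N₀ : ℕ, ∀ N : ℕ, N₀ ≤ N →
      ∀ (ι ι' : Type) [Fintype ι] [Fintype ι'] (M L : ℕ) (v a : ι → ℤ) (w b : ι' → ℤ), Scales τ θ B N M L →
      Small p ((N : ℝ) ^ θ) M v → Small q ((N : ℝ) ^ θ) L w → (∀ i j, |a i + b j + v i * w j| ≤ B * N) →
      ((univ.filter (fun z : ι × ι' => a z.1 + b z.2 + v z.1 * w z.2 ≠ 0 ∧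
        ¬ Asymp r N P T θ η (a z.1 + b z.2 + v z.1 * w z.2))).card : ℝ) ≤
          (N : ℝ) ^ (-θ) * Fintype.card (ι × ι') := by
    intro p q B τ hτ
    obtain ⟨p', hp'⟩ := Pool.Agent.V5helper55.BF.closure p q B τ hτ
    obtain ⟨θ₂, hθ₂, hc⟩ := hcrit p' B
    obtain ⟨θ₀, hθ₀, h1⟩ := hp' θ₂ hθ₂
    refine ⟨min θ₀ θ₂, lt_min hθ₀ hθ₂, fun η hη hηθ => ?_⟩
    obtain ⟨n1, h2⟩ := h1 (min θ₀ θ₂) (lt_min hθ₀ hθ₂) (min_le_left _ _)
    obtain ⟨n2, h3⟩ := hc η hη (hηθ.trans (min_le_right _ _))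
    refine ⟨n1 + n2 + 1, fun N hN ι ι' _ _ M L v a w b hs hv hw hb => ?_⟩
    have hN1 : (1 : ℝ) ≤ N := by exact_mod_cast (by omega : 1 ≤ N)
    have h4 := h2 N (by omega) ι ι' M L v a w b hs hv hw
    have h5 := h3 N (by omega) (ι × ι') (fun z : ι × ι' => a z.1 + b z.2 + v z.1 * w z.2)
      (fun z => hb z.1 z.2) h4
    refine le_trans ?_ (h5.trans ?_)
    · apply Nat.cast_le.2
      apply card_le_card
      intro z hz
      rw [mem_filter] at hz ⊢
      refine ⟨hz.1, hz.2.1, fun hg => hz.2.2 ?_⟩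
      exact Pool.Agent.V5helper55.BF.Asymp_mono r N P T θ₂ _ η _ (by omega) (min_le_right _ _) hg
    · apply mul_le_mul_of_nonneg_right _ (Nat.cast_nonneg _)
      apply Real.rpow_le_rpow_of_exponent_le hN1
      have := min_le_right θ₀ θ₂
      linarith
  refine ⟨P, T, hP, hT, h1, fun f g hf hg B τ hτ => ?_⟩
  obtain ⟨p, bf, hbf, hpf⟩ := Pool.Agent.V5helper55.BF.poly_small f hf B τ hτ
  obtain ⟨q, bg, hbg, hqg⟩ := Pool.Agent.V5helper55.BF.poly_small g hg B τ hτ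
  obtain ⟨θ₁, hθ₁, h2⟩ := h1 p q ((bf + bg) * B) τ hτ
  obtain ⟨θf, hθf, h3⟩ := hpf θ₁ hθ₁
  obtain ⟨θg, hθg, h4⟩ := hqg θ₁ hθ₁
  obtain ⟨θ, hθ⟩ : ∃ θ : ℝ, θ = min θ₁ (min θf θg) := ⟨_, rfl⟩
  have hθ0 : 0 < θ := by rw [hθ]; exact lt_min hθ₁ (lt_min hθf hθg)
  have hθ1 : θ ≤ θ₁ := by rw [hθ]; exact min_le_left _ _
  have hθ2 : θ ≤ θf := by rw [hθ]; exact (min_le_right _ _).trans (min_le_left _ _)
  have hθ3 : θ ≤ θg := by rw [hθ]; exact (min_le_right _ _).trans (min_le_right _ _)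
  refine ⟨θ, hθ0, fun η hη hηθ => ?_⟩
  obtain ⟨n1, h5⟩ := h2 η hη (hηθ.trans hθ1)
  obtain ⟨n2, h6⟩ := h3 θ hθ0 hθ2
  obtain ⟨n3, h7⟩ := h4 θ hθ0 hθ3
  refine ⟨n1 + n2 + n3 + 1, fun N hN X Y hX hY hXB hYB hXY A A' hA hA' hAc hA'c φ ψ hb => ?_⟩
  have hN1 : (1 : ℝ) ≤ N := by exact_mod_cast (by omega : 1 ≤ N)
  have hX1 : 1 ≤ X := by
    have : (1 : ℝ) ≤ X := (Real.one_le_rpow hN1 hτ.le).trans hX
    exact_mod_cast this
  have hY1 : 1 ≤ Y := by
    have : (1 : ℝ) ≤ Y := (Real.one_le_rpow hN1 hτ.le).trans hY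
    exact_mod_cast this
  have hsf := h6 N (by omega) X hX hXB A hA hAc
  have hsg := h7 N (by omega) Y hY hYB A' hA' hA'c
  have hXk : X ≤ bf * X ^ f.natDegree :=
    (Nat.le_self_pow (by omega) X).trans (Nat.le_mul_of_pos_left _ (by omega))
  have hYl : Y ≤ bg * Y ^ g.natDegree :=
    (Nat.le_self_pow (by omega) Y).trans (Nat.le_mul_of_pos_left _ (by omega))
  have hsc : Scales τ θ₁ ((bf + bg) * B) N (bf * X ^ f.natDegree) (bg * Y ^ g.natDegree) := by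
    refine ⟨hX.trans (by exact_mod_cast hXk), hY.trans (by exact_mod_cast hYl), ?_, ?_, ?_⟩
    · calc bf * X ^ f.natDegree ≤ (bf + bg) * (B * N) := Nat.mul_le_mul (by omega) hXB
        _ = (bf + bg) * B * N := by ring
    · calc bg * Y ^ g.natDegree ≤ (bf + bg) * (B * N) := Nat.mul_le_mul (by omega) hYB
        _ = (bf + bg) * B * N := by ring
    · have c1 : (N : ℝ) ^ (1 - θ₁) ≤ (N : ℝ) ^ (1 - θ) :=
        Real.rpow_le_rpow_of_exponent_le hN1 (by linarith)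
      have c2 : (1 : ℝ) ≤ bf := by exact_mod_cast hbf
      have c3 : (1 : ℝ) ≤ bg := by exact_mod_cast hbg
      push_cast
      calc (N : ℝ) ^ (1 - θ₁) ≤ (X : ℝ) ^ f.natDegree * (Y : ℝ) ^ g.natDegree := c1.trans hXY
        _ = (1 * (X : ℝ) ^ f.natDegree) * (1 * (Y : ℝ) ^ g.natDegree) := by ring
        _ ≤ _ := by gcongr
  have h8 := h5 N (by omega) A A' (bf * X ^ f.natDegree) (bg * Y ^ g.natDegree)
    (fun i : A => f.eval ((i : ℕ) : ℤ)) (fun i : A => φ i) (fun j : A' => g.eval ((j : ℕ) : ℤ))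
    (fun j : A' => ψ j) hsc hsf hsg (by
      intro i j
      refine (hb i i.2 j j.2).trans ?_
      have c1 : B ≤ (bf + bg) * B := Nat.le_mul_of_pos_left _ (by omega)
      have c2 : (B : ℤ) ≤ (((bf + bg) * B : ℕ) : ℤ) := by exact_mod_cast c1
      exact mul_le_mul_of_nonneg_right c2 (Nat.cast_nonneg _))
  have h9 : ((A ×ˢ A').filter (fun z : ℕ × ℕ => φ z.1 + ψ z.2 + f.eval (z.1 : ℤ) * g.eval (z.2 : ℤ) ≠ 0 ∧
      ¬ Asymp r N P T θ η (φ z.1 + ψ z.2 + f.eval (z.1 : ℤ) * g.eval (z.2 : ℤ)))) ⊆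
      (univ.filter (fun z : A × A' => φ z.1 + ψ z.2 + f.eval ((z.1 : ℕ) : ℤ) * g.eval ((z.2 : ℕ) : ℤ) ≠ 0 ∧
        ¬ Asymp r N P T θ₁ η (φ z.1 + ψ z.2 + f.eval ((z.1 : ℕ) : ℤ) * g.eval ((z.2 : ℕ) : ℤ)))).image
        (fun z => ((z.1 : ℕ), (z.2 : ℕ))) := by
    intro z hz
    rw [mem_filter, mem_product] at hz
    rw [mem_image]
    refine ⟨(⟨z.1, hz.1.1⟩, ⟨z.2, hz.1.2⟩), ?_, rfl⟩
    rw [mem_filter]
    refine ⟨mem_univ _, hz.2.1, fun hg => hz.2.2 ?_⟩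
    exact Pool.Agent.V5helper55.BF.Asymp_mono r N P T θ₁ _ η _ (by omega) hθ1 hg
  refine (Nat.cast_le.2 ((card_le_card h9).trans card_image_le)).trans (h8.trans ?_)
  rw [Fintype.card_prod, Fintype.card_coe, Fintype.card_coe]
  push_cast
  apply mul_le_mul_of_nonneg_right _ (by positivity)
  exact Real.rpow_le_rpow_of_exponent_le hN1 (by linarith)

end Pool.Agent.Results.MP_122e00_nt.BilinearFamilies
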