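import Pool.Agent.V5helper54.DC.E2

/-!
# Lower bounds for the correlations of the divisor functions, for every fixed shift

The main term is the conjectured one; the constant is `1 - (1 - r / 2 ^ (r - 1)) ^ 2` (so `15 / 16` for `r = 3`).
-/

set_option autoImplicit false

namespace Pool.Agent.Results.MP_122e00_nt.FixedShiftLowerBound

open Finset Polynomial Filter Topology

/-- `d_r(n)`: the number of the ordered `r`-tuples of positive integers with product `n` (and `d_r(0) = 0`) -/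
def d (r n : ℕ) : ℕ := ((ArithmeticFunction.zeta : ArithmeticFunction ℕ) ^ r) n

/-- `D_r(x; h)`: the sum of `d_r(n) d_r(n + h)` over `1 ≤ n ≤ x`, with `d_r(m) = 0` for `m ≤ 0` -/
noncomputable def D (r x : ℕ) (h : ℤ) : ℝ := ∑ n ∈ Icc 1 x, (d r n : ℝ) * d r ((n : ℤ) + h).toNat

/-- The Ramanujan sum `c_q(h)`: the sum of `μ(q / g) g` over the common divisors `g` of `q` and `h`. -/
def ram (q : ℕ) (h : ℤ) : ℤ := ∑ g ∈ q.divisors.filter (fun g : ℕ => (g : ℤ) ∣ h), ArithmeticFunction.moebius (q / g) * g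

/-- `κ_s(q)`: the proportion of the `s`-tuples of residues `0 ≤ a < q` whose product is divisible by `q` -/
noncomputable def κ (s q : ℕ) : ℝ := (Nat.card {a : Fin s → Fin q // q ∣ ∏ i, (a i : ℕ)} : ℝ) / (q : ℝ) ^ s

/-- The singular series `𝔖_r(h)`: the sum of `κ_{r - 1}(q) ^ 2 c_q(h)` over the `q ≥ 1`. -/
noncomputable def 𝔖 (r : ℕ) (h : ℤ) : ℝ := ∑' q : ℕ, κ (r - 1) (q + 1) ^ 2 * (ram (q + 1) h : ℝ)

/-- the constant `1 - (1 - r / 2 ^ (r - 1)) ^ 2` -/
noncomputable def c (r : ℕ) : ℝ := 1 - (1 - (r : ℝ) / 2 ^ (r - 1)) ^ 2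

theorem κ_eq (s q : ℕ) (hq : 1 ≤ q) : κ s q = Pool.Agent.TH212.DV.kap s q := Pool.Agent.TH212.DV.kap_card s q hq

theorem 𝔖_eq (t : ℕ) (h : ℤ) (hh : h ≠ 0) : 𝔖 (t + 2) h = Pool.Agent.TH212.DV.Sing (t + 1) h.natAbs := by
  have h1 := Pool.Agent.TH212.DV.sing_summable t h.natAbs (by omega)
  unfold 𝔖 Pool.Agent.TH212.DV.Sing
  rw [h1.tsum_eq_zero_add, Pool.Agent.TH212.DV.cz_zero_left, Int.cast_zero, mul_zero, zero_add]
  apply tsum_congr
  intro q
  rw [κ_eq _ _ (Nat.succ_pos q), ← Pool.Agent.V5helper54.DC.cz_natAbs]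
  rfl

theorem 𝔖_pos (t : ℕ) (h : ℤ) (hh : h ≠ 0) : 0 < 𝔖 (t + 2) h := by
  rw [𝔖_eq t h hh]
  obtain ⟨c, hc, h1⟩ := Pool.Agent.TH212.DV.sing_pos t
  exact lt_of_lt_of_le hc (h1 _ (by omega))

theorem D_pos (s x h : ℕ) : D (s + 2) x (h : ℤ) = Pool.Agent.V5helper54.DC.DD s x h := by
  unfold D Pool.Agent.V5helper54.DC.DD
  apply sum_congr rfl
  intro n _
  have : ((n : ℤ) + (h : ℤ)).toNat = n + h := by omega
  rw [this]
  rfl

theorem D_neg (s x h : ℕ) : D (s + 2) (x + h) (-(h : ℤ)) = Pool.Agent.V5helper54.DC.DD s x h := by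
  unfold D Pool.Agent.V5helper54.DC.DD
  have e0 : (Icc 1 (x + h)).filter (fun n => h < n) = (Icc 1 x).image (fun n => n + h) := by
    ext m
    rw [mem_image, mem_filter, mem_Icc]
    constructor
    · intro h1
      exact ⟨m - h, by rw [mem_Icc]; omega, by omega⟩
    · rintro ⟨n, hn, rfl⟩
      rw [mem_Icc] at hn
      omega
  have e1 : ∑ n ∈ Icc 1 (x + h), (d (s + 2) n : ℝ) * d (s + 2) ((n : ℤ) + -(h : ℤ)).toNat =
      ∑ n ∈ (Icc 1 (x + h)).filter (fun n => h < n), (d (s + 2) n : ℝ) * d (s + 2) ((n : ℤ) + -(h : ℤ)).toNat := by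
    rw [sum_filter]
    apply sum_congr rfl
    intro n _
    split_ifs with hn
    · rfl
    · have : ((n : ℤ) + -(h : ℤ)).toNat = 0 := by omega
      rw [this]
      unfold d
      rw [ArithmeticFunction.map_zero]
      simp
  rw [e1, e0, sum_image (by intro a _ b _ hab; simpa using hab)]
  apply sum_congr rfl
  intro n _
  have : (((n + h : ℕ) : ℤ) + -(h : ℤ)).toNat = n := by omega
  rw [this, mul_comm]
  rfl

theorem c_eq (s : ℕ) : c (s + 2) = Pool.Agent.V5helper54.DC.cr s := by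
  unfold c Pool.Agent.V5helper54.DC.cr
  have : s + 2 - 1 = s + 1 := by omega
  rw [this]
  push_cast
  rfl

theorem c_pos (s : ℕ) : 0 < c (s + 2) := by
  unfold c
  have e : s + 2 - 1 = s + 1 := by omega
  rw [e]
  have h1 : ((s + 2 : ℕ) : ℝ) ≤ 2 ^ (s + 1) := by
    have : s + 1 + 1 ≤ 2 ^ (s + 1) := Nat.lt_two_pow_self
    exact_mod_cast this
  have h2 : (0 : ℝ) < 2 ^ (s + 1) := by positivity
  have h3 : ((s + 2 : ℕ) : ℝ) / 2 ^ (s + 1) ≤ 1 := by rwa [div_le_one h2]
  have h4 : 0 < ((s + 2 : ℕ) : ℝ) / 2 ^ (s + 1) := by positivity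
  nlinarith

theorem lower_pos (s h : ℕ) (hh : 1 ≤ h) (ε : ℝ) (hε : 0 < ε) : ∀ᶠ x : ℕ in atTop,
    (c (s + 2) - ε) * (𝔖 (s + 2) h / ((s + 1).factorial : ℝ) ^ 2) * (x * Real.log x ^ (2 * (s + 1))) ≤
      Pool.Agent.V5helper54.DC.DD s x h := by
  rw [𝔖_eq s h (by exact_mod_cast (by omega : h ≠ 0)), c_eq, Int.natAbs_natCast]
  exact Pool.Agent.V5helper54.DC.DD_lower s h hh ε hε

theorem 𝔖_neg (s h : ℕ) (hh : 1 ≤ h) : 𝔖 (s + 2) (-(h : ℤ)) = 𝔖 (s + 2) h := by
  have h0 : (h : ℤ) ≠ 0 := by exact_mod_cast (by omega : h ≠ 0)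
  rw [𝔖_eq s _ (neg_ne_zero.2 h0), 𝔖_eq s _ h0, Int.natAbs_neg]

/-- the lower bound for all shifts -/
theorem lower_all (s : ℕ) (h : ℤ) (hh : h ≠ 0) (ε : ℝ) (hε : 0 < ε) : ∀ᶠ x : ℕ in atTop,
    (c (s + 2) - ε) * (𝔖 (s + 2) h / ((s + 1).factorial : ℝ) ^ 2) * (x * Real.log x ^ (2 * (s + 1))) ≤ D (s + 2) x h := by
  rcases Int.lt_or_gt_of_ne hh with hneg | hpos
  · obtain ⟨H, hH⟩ : ∃ H : ℕ, h = -(H : ℤ) := ⟨h.natAbs, by omega⟩
    have hH1 : 1 ≤ H := by omega
    rw [hH, 𝔖_neg s H hH1]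
    obtain ⟨S, hS⟩ : ∃ S : ℝ, S = 𝔖 (s + 2) H / ((s + 1).factorial : ℝ) ^ 2 := ⟨_, rfl⟩
    have hS0 : 0 < S := by
      have := 𝔖_pos s H (by exact_mod_cast (by omega : H ≠ 0))
      rw [hS]
      positivity
    have h1 := lower_pos s H hH1 (ε / 2) (by positivity)
    rw [← hS] at h1
    rw [← hS]
    -- compare the main terms at `y` and `y + H`
    have hlog : Tendsto (fun N : ℕ => Real.log (N : ℝ)) atTop atTop := Real.tendsto_log_atTop.comp tendsto_natCast_atTop_atTop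
    have hr : Tendsto (fun y : ℕ => ((y + H : ℕ) : ℝ) / y * (Real.log ((y + H : ℕ) : ℝ) / Real.log y) ^ (2 * (s + 1))) atTop
        (𝓝 (1 * 1 ^ (2 * (s + 1)))) := by
      have a1 : Tendsto (fun y : ℕ => ((y + H : ℕ) : ℝ) / y) atTop (𝓝 1) := by
        have : Tendsto (fun y : ℕ => 1 + (H : ℝ) / y) atTop (𝓝 (1 + 0)) :=
          tendsto_const_nhds.add (tendsto_const_nhds.div_atTop tendsto_natCast_atTop_atTop)
        rw [add_zero] at this
        refine this.congr' ?_
        filter_upwards [eventually_ge_atTop 1] with y hy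
        have : (y : ℝ) ≠ 0 := by positivity
        push_cast
        field_simp
      have a2 : Tendsto (fun y : ℕ => Real.log ((y + H : ℕ) : ℝ) / Real.log y) atTop (𝓝 1) := by
        have b1 : Tendsto (fun y : ℕ => 1 + Real.log (((y + H : ℕ) : ℝ) / y) / Real.log y) atTop (𝓝 (1 + 0)) := by
          apply tendsto_const_nhds.add
          have b2 : Tendsto (fun y : ℕ => Real.log (((y + H : ℕ) : ℝ) / y)) atTop (𝓝 (Real.log 1)) :=
            (Real.continuousAt_log (by norm_num)).tendsto.comp a1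
          exact b2.div_atTop hlog
        rw [add_zero] at b1
        refine b1.congr' ?_
        filter_upwards [eventually_ge_atTop 1, hlog.eventually_gt_atTop 0] with y hy hy2
        have hy0 : (y : ℝ) ≠ 0 := by positivity
        have hyH : ((y + H : ℕ) : ℝ) ≠ 0 := by positivity
        rw [Real.log_div hyH hy0]
        field_simp
        ring
      exact a1.mul (a2.pow _)
    rw [one_pow, mul_one] at hr
    have h2 : ∀ᶠ y : ℕ in atTop, (c (s + 2) - ε) * (((y + H : ℕ) : ℝ) / y * (Real.log ((y + H : ℕ) : ℝ) / Real.log y) ^ (2 * (s + 1))) <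
        c (s + 2) - ε / 2 := by
      have := hr.const_mul (c (s + 2) - ε)
      exact this.eventually (gt_mem_nhds (by linarith))
    have h3 : ∀ᶠ y : ℕ in atTop,
        (c (s + 2) - ε) * S * (((y + H : ℕ) : ℝ) * Real.log ((y + H : ℕ) : ℝ) ^ (2 * (s + 1))) ≤ D (s + 2) (y + H) (-(H : ℤ)) := by
      filter_upwards [h1, h2, hlog.eventually_gt_atTop 0, eventually_ge_atTop 1] with y g1 g2 g3 g4
      rw [D_neg]
      refine le_trans ?_ g1
      have hy0 : (0 : ℝ) < y := by exact_mod_cast g4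
      have e : (c (s + 2) - ε) * S * (((y + H : ℕ) : ℝ) * Real.log ((y + H : ℕ) : ℝ) ^ (2 * (s + 1))) =
          ((c (s + 2) - ε) * (((y + H : ℕ) : ℝ) / y * (Real.log ((y + H : ℕ) : ℝ) / Real.log y) ^ (2 * (s + 1)))) *
            (S * (y * Real.log y ^ (2 * (s + 1)))) := by
        rw [div_pow]
        have : Real.log (y : ℝ) ^ (2 * (s + 1)) ≠ 0 := by positivity
        field_simp
      rw [e]
      calc _ ≤ (c (s + 2) - ε / 2) * (S * (y * Real.log y ^ (2 * (s + 1)))) :=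
            mul_le_mul_of_nonneg_right g2.le (by positivity)
        _ = _ := by ring
    rw [eventually_atTop] at h3 ⊢
    obtain ⟨a, ha⟩ := h3
    refine ⟨a + H, fun x hx => ?_⟩
    have := ha (x - H) (by omega)
    rwa [show x - H + H = x by omega] at this
  · obtain ⟨H, hH⟩ : ∃ H : ℕ, h = (H : ℤ) := ⟨h.natAbs, by omega⟩
    rw [hH]
    filter_upwards [lower_pos s H (by omega) ε hε] with x hx
    rw [D_pos]
    exact hx

/-- **The correlations of the divisor functions, for every fixed shift, from below.** Let `r ≥ 2` and let `h ≠ 0` be an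
integer; `c(r) = 1 - (1 - r / 2 ^ (r - 1)) ^ 2`, so that `c(3) = 15 / 16` and `c(4) = 3 / 4`.

(1) `D_r(x; h) ≥ (c(r) - ε) 𝔖_r(h) / ((r - 1)!) ^ 2 · x (log x) ^ (2 r - 2)` for every `ε > 0` and all large `x`, where
`𝔖_r(h) > 0` and `𝔖_r(h) / ((r - 1)!) ^ 2 · x (log x) ^ (2 r - 2)` is the conjectured main term.

(2) So if `D_r(x; h) ~ x P(log x)` for a polynomial `P`, then `P` has at least the degree `2 r - 2`, and if it has this
degree, then its leading coefficient is at least `c(r) 𝔖_r(h) / ((r - 1)!) ^ 2`. -/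
theorem result (r : ℕ) (hr : 2 ≤ r) (h : ℤ) (hh : h ≠ 0) :
    0 < 𝔖 r h ∧ 0 < c r ∧
    (∀ ε : ℝ, 0 < ε → ∃ x₀ : ℕ, ∀ x : ℕ, x₀ ≤ x →
      (c r - ε) * (𝔖 r h / ((r - 1).factorial : ℝ) ^ 2) * (x * Real.log x ^ (2 * r - 2)) ≤ D r x h) ∧
    (∀ P : ℝ[X], Tendsto (fun x : ℕ => D r x h / (x * P.eval (Real.log x))) atTop (𝓝 1) →
      2 * r - 2 ≤ P.natDegree ∧
      (P.natDegree = 2 * r - 2 → c r * (𝔖 r h / ((r - 1).factorial : ℝ) ^ 2) ≤ P.leadingCoeff)) := by
  obtain ⟨s, rfl⟩ : ∃ s, r = s + 2 := ⟨r - 2, by omega⟩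
  have e0 : s + 2 - 1 = s + 1 := by omega
  have e1 : 2 * (s + 2) - 2 = 2 * (s + 1) := by omega
  rw [e0, e1]
  have hSpos := 𝔖_pos s h hh
  obtain ⟨S, hS⟩ : ∃ S : ℝ, S = 𝔖 (s + 2) h / ((s + 1).factorial : ℝ) ^ 2 := ⟨_, rfl⟩
  have hS0 : 0 < S := by rw [hS]; positivity
  rw [← hS]
  have hlow : ∀ ε : ℝ, 0 < ε → ∀ᶠ x : ℕ in atTop, (c (s + 2) - ε) * S * (x * Real.log x ^ (2 * (s + 1))) ≤ D (s + 2) x h := by
    intro ε hε
    rw [hS]
    exact lower_all s h hh ε hε
  refine ⟨hSpos, c_pos s, fun ε hε => ?_, fun P hP => ?_⟩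
  · obtain ⟨a, ha⟩ := eventually_atTop.1 (hlow ε hε)
    exact ⟨a, ha⟩
  · have hlog : Tendsto (fun N : ℕ => Real.log (N : ℝ)) atTop atTop := Real.tendsto_log_atTop.comp tendsto_natCast_atTop_atTop
    -- `P(log x) / (log x)^{2s+2}` is at least `(c - ε) S` for large `x`
    have key : ∀ ε : ℝ, 0 < ε → ε < c (s + 2) → ∀ᶠ x : ℕ in atTop,
        (c (s + 2) - ε) * S ≤ (1 + ε) * (P.eval (Real.log x) / Real.log x ^ (2 * (s + 1))) := by
      intro ε hε hεc
      filter_upwards [hlow ε hε, hP.eventually (gt_mem_nhds (by linarith : (1 : ℝ) < 1 + ε)),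
        hP.eventually (lt_mem_nhds (by norm_num : (1 : ℝ) / 2 < 1)), hlog.eventually_gt_atTop 0, eventually_ge_atTop 1] with x g1 g2 g3 g4 g5
      have hx0 : (0 : ℝ) < x := by exact_mod_cast g5
      have hmain : 0 < (c (s + 2) - ε) * S * (x * Real.log x ^ (2 * (s + 1))) := by
        have : 0 < c (s + 2) - ε := by linarith
        positivity
      have hD0 : 0 < D (s + 2) x h := lt_of_lt_of_le hmain g1
      have hq : 0 < (x : ℝ) * P.eval (Real.log x) := by
        by_contra hcon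
        rw [not_lt] at hcon
        have : D (s + 2) x h / (x * P.eval (Real.log x)) ≤ 0 := div_nonpos_of_nonneg_of_nonpos hD0.le hcon
        linarith
      rw [div_lt_iff₀ hq] at g2
      have h1 : (c (s + 2) - ε) * S * (x * Real.log x ^ (2 * (s + 1))) ≤ (1 + ε) * (x * P.eval (Real.log x)) := g1.trans g2.le
      have hL : 0 < Real.log (x : ℝ) ^ (2 * (s + 1)) := by positivity
      rw [mul_div_assoc', le_div_iff₀ hL]
      have h2 : x * ((c (s + 2) - ε) * S * Real.log x ^ (2 * (s + 1))) ≤ x * ((1 + ε) * P.eval (Real.log x)) := by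
        calc x * ((c (s + 2) - ε) * S * Real.log x ^ (2 * (s + 1))) = (c (s + 2) - ε) * S * (x * Real.log x ^ (2 * (s + 1))) := by ring
          _ ≤ _ := h1
          _ = _ := by ring
      exact le_of_mul_le_mul_left h2 hx0
    have hcpos := c_pos s
    constructor
    · by_contra hcon
      rw [not_le] at hcon
      have hdeg : P.degree < ((X : ℝ[X]) ^ (2 * (s + 1))).degree := by
        rw [degree_X_pow]
        exact lt_of_le_of_lt degree_le_natDegree (by exact_mod_cast hcon)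
      have h1 := (Polynomial.div_tendsto_atTop_zero_of_degree_lt P _ hdeg).comp hlog
      have h2 := key (c (s + 2) / 2) (by positivity) (by linarith)
      have h3 : Tendsto (fun x : ℕ => (1 + c (s + 2) / 2) * (P.eval (Real.log x) / Real.log x ^ (2 * (s + 1)))) atTop (𝓝 ((1 + c (s + 2) / 2) * 0)) := by
        apply Tendsto.const_mul
        refine h1.congr fun x => ?_
        simp
      have h4 := ge_of_tendsto h3 h2
      rw [mul_zero] at h4
      have : 0 < (c (s + 2) - c (s + 2) / 2) * S := mul_pos (by linarith) hS0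
      linarith
    · intro hd
      have hP0 : P ≠ 0 := by
        rintro rfl
        simp at hd
      have hdeg : P.degree = ((X : ℝ[X]) ^ (2 * (s + 1))).degree := by
        rw [degree_X_pow, degree_eq_natDegree hP0, hd]
      have h1 := (Polynomial.div_tendsto_atTop_leadingCoeff_div_of_degree_eq P _ hdeg).comp hlog
      have h3 : ∀ ε : ℝ, 0 < ε → ε < c (s + 2) → (c (s + 2) - ε) * S ≤ (1 + ε) * P.leadingCoeff := by
        intro ε hε hεc
        have h4 : Tendsto (fun x : ℕ => (1 + ε) * (P.eval (Real.log x) / Real.log x ^ (2 * (s + 1)))) atTop (𝓝 ((1 + ε) * P.leadingCoeff)) := by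
          apply Tendsto.const_mul
          have h5 : P.leadingCoeff / ((X : ℝ[X]) ^ (2 * (s + 1))).leadingCoeff = P.leadingCoeff := by
            rw [leadingCoeff_X_pow, div_one]
          rw [h5] at h1
          refine h1.congr fun x => ?_
          simp
        exact ge_of_tendsto h4 (key ε hε hεc)
      have h5 : Tendsto (fun ε : ℝ => (1 + ε) * P.leadingCoeff) (𝓝[>] 0) (𝓝 ((1 + 0) * P.leadingCoeff)) := by
        have : ContinuousAt (fun ε : ℝ => (1 + ε) * P.leadingCoeff) 0 := by fun_prop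
        exact this.tendsto.mono_left nhdsWithin_le_nhds
      have h6 : Tendsto (fun ε : ℝ => (c (s + 2) - ε) * S) (𝓝[>] 0) (𝓝 ((c (s + 2) - 0) * S)) := by
        have : ContinuousAt (fun ε : ℝ => (c (s + 2) - ε) * S) 0 := by fun_prop
        exact this.tendsto.mono_left nhdsWithin_le_nhds
      have h7 := le_of_tendsto_of_tendsto h6 h5 (by
        have : ∀ᶠ ε in 𝓝[>] (0 : ℝ), ε ∈ Set.Ioo (0 : ℝ) (c (s + 2)) := Ioo_mem_nhdsGT hcpos
        filter_upwards [this] with ε hε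
        exact h3 ε hε.1 hε.2)
      rw [sub_zero, add_zero, one_mul] at h7
      exact h7

end Pool.Agent.Results.MP_122e00_nt.FixedShiftLowerBound
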