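import Pool.Agent.V5helper54.GD.Few
import Pool.Agent.V5helper54.GD.Low
import Pool.Agent.V5helper54.GD.Ev
import Pool.Agent.Results.MP_122e00_nt.SparseRandomShifts

/-!
# Correlations of the divisor functions for almost all shifts among the values of polynomials of growing degree

Definitions used: from the starting file `Pool.Agent.Results.MP_122e00_nt.PowerSavingShifts`: the divisor functions `d`,
the sums `D`, the Ramanujan sums `ram`, the densities `κ`, the singular series `𝔖`, `Density`, `G`, `main`. From the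
starting file `Pool.Agent.Results.MP_122e00_nt.SparseRandomShifts`: `Asymp r N P T E η h`: for ALL `x ≤ N` the sum
`D_r(x; h)` is the main term `main` up to `E` and, if `|h| ≤ N ^ (1 - η)`, it is `x T_h(log x)` up to
`E + N ^ (1 - η / 4)`.

Method: for an integer valued polynomial of degree `k` the sums of the powers of order `< k` of the variables determine the
sum of the powers of order `k` in an equation `∑ F(x_i) = ∑ F(y_i)`. So the additive energy of a high order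
`s ≍ k ^ 2 log k` of the values is bounded by Vinogradov's mean value theorem, whose constants are made explicit:
`exp (104 (r + m + 2) ^ 3 log (r + m + 2))` (`Pool.Agent.V5helper54.GD.vm`). So the Fourier transform of a random value
is larger than `M ^ (- c / (k log k))` at no more than `N ^ θ` well spaced points (`Pool.Agent.V5helper54.GD.few`), and the
spectral criterion of the starting file `SparseRandomShifts` applies.
-/

set_option autoImplicit false

namespace Pool.Agent.Results.MP_122e00_nt.GrowingDegreeShifts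

open Finset Polynomial
open Pool.Agent.Results.MP_122e00_nt.PowerSavingShifts (D ram κ 𝔖 Density G main)
open Pool.Agent.Results.MP_122e00_nt.SparseRandomShifts (Asymp FewLarge φ)

lemma asymp_mono (r N : ℕ) (P : ℕ → ℝ[X]) (T : ℤ → ℝ[X]) (E E' η : ℝ) (hE : E ≤ E') (h : ℤ) (hA : Asymp r N P T E η h) :
    Asymp r N P T E' η h := by
  intro x hx
  obtain ⟨h1, h2⟩ := hA x hx
  exact ⟨h1.trans hE, fun hh => (h2 hh).trans (by linarith)⟩

open Classical in
/-- **Divisor correlations for almost all shifts among the values of polynomials of growing degree.** Let `r ≥ 2`. There are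
polynomials `P_q` (`q ≥ 1`) and `T_h` (`h ≠ 0`) with the following properties.

(0) As in the starting files: `P_q` is the density of `d_r(n) e(b n / q)`, `(b, q) = 1`, with a power saving; for `h ≠ 0` the
series `G_h(u, v) = ∑ c_q(h) P_q(u) P_q(v)` satisfies `T_h(u) + T_h'(u) = G_h(u, u)`, and `T_h` has degree `2 r - 2` and
leading coefficient `𝔖_r(h) / ((r - 1)!) ^ 2`.

(1) There is `θ > 0` such that for all `δ > 0`, `B`, `0 < η ≤ 1` and every large `M` the following holds for ALL degrees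
`2 ≤ k ≤ (log M) ^ (1 / 2 - δ)`, ALL `N ≤ M ^ ((1 + θ) k)` and ALL real polynomials `F` of degree `k` whose values
`v(n) = F(n)` at `n = 1, ..., M` are integers in `[-B N, B N]` (for example `n ^ k`, `n (n + 1) ... (n + k - 1)`, binomial
coefficients `(n choose k)`, and any integral polynomial with any translation): for all `1 ≤ n ≤ M` with at most
`M ^ (1 - θ / (k log k))` exceptions, the shift `h = v(n)` is `0` or satisfies, for ALL `x ≤ N`,
`D_r(x; h) = ∑ G_h(log n, log(n + h)) + O(N M ^ (- θ / (k log k)))` (the sum over `n ≤ x` with `n + h ≥ 1`) and, if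
`|h| ≤ N ^ (1 - η)`, `D_r(x; h) = x T_h(log x) + O(N M ^ (- θ / (k log k)) + N ^ (1 - η / 4))`, with implied constants `1`.
So the families of the shifts up to `N` may have as few as `exp ((log N) ^ (2 / 3 + ε))` elements. -/
theorem result (r : ℕ) (hr : 2 ≤ r) : ∃ (P : ℕ → ℝ[X]) (T : ℤ → ℝ[X]),
    (Density r P ∧ ∀ q, 1 ≤ q → (P q).natDegree = r - 1 ∧ (P q).leadingCoeff = κ (r - 1) q / ((r - 1).factorial : ℝ)) ∧
    (∀ h : ℤ, h ≠ 0 → (∀ u v : ℝ, Summable (fun q : ℕ => (ram (q + 1) h : ℝ) * ((P (q + 1)).eval u * (P (q + 1)).eval v))) ∧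
      (∀ u : ℝ, (T h).eval u + (derivative (T h)).eval u = G P h u u) ∧
      (T h).natDegree = 2 * r - 2 ∧ (T h).leadingCoeff = 𝔖 r h / ((r - 1).factorial : ℝ) ^ 2) ∧
    ∃ θ : ℝ, 0 < θ ∧ ∀ (δ : ℝ) (B : ℕ) (η : ℝ), 0 < δ → 0 < η → η ≤ 1 → ∃ M₀ : ℕ, ∀ M : ℕ, M₀ ≤ M →
      ∀ k : ℕ, 2 ≤ k → (k : ℝ) ≤ Real.log M ^ (1 / 2 - δ) → ∀ N : ℕ, (N : ℝ) ≤ (M : ℝ) ^ ((1 + θ) * k) →
      ∀ (F : ℝ[X]) (v : ℕ → ℤ), F.natDegree = k → (∀ n ∈ Icc 1 M, F.eval (n : ℝ) = v n ∧ |v n| ≤ B * N) →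
        (((Icc 1 M).filter fun n => v n ≠ 0 ∧
          ¬ Asymp r N P T (N * (M : ℝ) ^ (-(θ / (k * Real.log k)))) η (v n)).card : ℝ) ≤
          (M : ℝ) ^ (1 - θ / (k * Real.log k)) := by
  classical
  obtain ⟨P, T, h0, h1, ⟨θc, hθc, C', hcrit⟩, -, -⟩ := Pool.Agent.Results.MP_122e00_nt.SparseRandomShifts.result r hr
  refine ⟨P, T, ⟨h0.1, h0.2.1⟩, h1, ?_⟩
  obtain ⟨θ₁, hθ₁⟩ : ∃ θ₁, θ₁ = min θc 1 := ⟨_, rfl⟩
  have hθ₁0 : 0 < θ₁ := by rw [hθ₁]; exact lt_min hθc one_pos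
  have hθ₁1 : θ₁ ≤ 1 := by rw [hθ₁]; exact min_le_right _ _
  have hθ₁c : θ₁ ≤ θc := by rw [hθ₁]; exact min_le_left _ _
  obtain ⟨c, K, hc, hcθ, hK, hfew⟩ := Pool.Agent.V5helper54.GD.few θ₁ hθ₁0 hθ₁1
  refine ⟨c / 16, by positivity, fun δ B η hδ hη hη1 => ?_⟩
  obtain ⟨N₀, hN₀⟩ := hcrit B η hη hη1
  obtain ⟨M₀, hM₀⟩ := Pool.Agent.V5helper54.GD.ev (c / 16) K δ (by positivity) hK hδ B C' N₀
  refine ⟨M₀, fun M hM k hk hkM N hN F v hF hv => ?_⟩
  obtain ⟨hM2, hMN, hL1, hev1, hev2, hev3, hev4⟩ := hM₀ M hM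
  obtain ⟨L, hL⟩ : ∃ L, L = Real.log (M : ℝ) := ⟨_, rfl⟩
  rw [← hL] at hL1 hev1 hev2 hev3 hev4 hkM
  have hL0 : 0 < L := by linarith
  have hMr : (2 : ℝ) ≤ M := by exact_mod_cast hM2
  have hM0 : (0 : ℝ) < M := by linarith
  have hkr : (2 : ℝ) ≤ k := by exact_mod_cast hk
  have hk0 : (0 : ℝ) < k := by linarith
  obtain ⟨l, hl⟩ : ∃ l, l = Real.log (k : ℝ) := ⟨_, rfl⟩
  have hl69 : (69 / 100 : ℝ) ≤ l := by
    have e1 : Real.log 2 ≤ l := by rw [hl]; exact Real.log_le_log (by norm_num) hkr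
    have := Real.log_two_gt_d9
    linarith
  have hl0 : 0 < l := by linarith
  rw [← hl]
  have hkl0 : 0 < k * l := by positivity
  have hkL : (k : ℝ) ≤ L := by
    refine hkM.trans ?_
    calc L ^ (1 / 2 - δ) ≤ L ^ (1 : ℝ) := Real.rpow_le_rpow_of_exponent_le hL1 (by linarith)
      _ = L := Real.rpow_one L
  have hlL : l ≤ Real.log L := by rw [hl]; exact Real.log_le_log hk0 hkL
  have hkl : k * l ≤ L ^ (1 / 2 : ℝ) := (mul_le_mul hkM hlL hl0.le (by positivity)).trans hev4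
  have hkl1 : 1 ≤ k * l := by nlinarith
  have hBr : (0 : ℝ) ≤ B := Nat.cast_nonneg B
  have hKk : K * (1 + Real.log (B + 1)) * ((k : ℝ) ^ 2 * l ^ 4) ≤ L := by
    refine le_trans ?_ hev1
    have e1 : 0 ≤ Real.log ((B : ℝ) + 1) := Real.log_nonneg (by linarith)
    apply mul_le_mul_of_nonneg_left _ (by positivity)
    apply mul_le_mul _ (pow_le_pow_left₀ hl0.le hlL 4) (by positivity) (by positivity)
    calc (k : ℝ) ^ 2 ≤ (L ^ (1 / 2 - δ)) ^ 2 := pow_le_pow_left₀ hk0.le hkM 2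
      _ = L ^ (1 - 2 * δ) := by
          rw [← Real.rpow_natCast, ← Real.rpow_mul hL0.le]
          congr 1
          push_cast
          ring
  have hPV : Pool.Agent.V5helper54.GD.PolyValued k M v := ⟨F, hF, fun n hn => (hv n hn).1⟩
  have hMhalf1 : (M : ℝ) ^ (1 / 2 : ℝ) ≤ M := by
    calc (M : ℝ) ^ (1 / 2 : ℝ) ≤ (M : ℝ) ^ (1 : ℝ) := Real.rpow_le_rpow_of_exponent_le (by linarith) (by norm_num)
      _ = M := Real.rpow_one _
  have h4k : 4 * k * (B + 1 : ℝ) ≤ (M : ℝ) ^ (1 / 2 : ℝ) := by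
    refine le_trans ?_ hev2
    apply mul_le_mul_of_nonneg_right _ (by positivity)
    linarith
  have hlow : (M : ℝ) ^ ((k : ℝ) / 2) ≤ N := by
    refine Pool.Agent.V5helper54.GD.low' hF (by omega) ?_ h4k (fun n hn => (hv n hn).1) (fun n hn => (hv n hn).2)
    have := h4k.trans hMhalf1
    exact_mod_cast this
  have hNM : (M : ℝ) ≤ N := by
    refine le_trans ?_ hlow
    calc (M : ℝ) = (M : ℝ) ^ (1 : ℝ) := (Real.rpow_one _).symm
      _ ≤ (M : ℝ) ^ ((k : ℝ) / 2) := Real.rpow_le_rpow_of_exponent_le (by linarith) (by linarith)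
  have hN0 : (0 : ℝ) < N := by linarith
  have hN1 : (1 : ℝ) ≤ N := by linarith
  have hNN : N₀ ≤ N := hMN.trans (by exact_mod_cast hNM)
  have hNup : (N : ℝ) ≤ (M : ℝ) ^ ((1 + c) * k) := by
    refine hN.trans (Real.rpow_le_rpow_of_exponent_le (by linarith) ?_)
    apply mul_le_mul_of_nonneg_right _ hk0.le
    linarith
  obtain ⟨hu1, hfewF⟩ := hfew B k M N v hk hM2 (by rw [← hl, ← hL]; exact hKk) hPV (fun n hn => (hv n hn).2) hlow hNup
  rw [← hl, ← hL] at hu1
  rw [← hl] at hfewF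
  obtain ⟨u, hu⟩ : ∃ u, u = c * L / (k * l) := ⟨_, rfl⟩
  rw [← hu] at hu1
  have hpow : ∀ a : ℝ, (M : ℝ) ^ (-(a / (k * l))) = Real.exp (-(a * L / (k * l))) := by
    intro a
    rw [Real.rpow_def_of_pos hM0, ← hL]
    congr 1
    ring
  obtain ⟨ρ, hρ⟩ : ∃ ρ, ρ = Real.exp (-u) := ⟨_, rfl⟩
  have hρM : (M : ℝ) ^ (-(c / (k * l))) = ρ := by rw [hpow, hρ, hu]
  have hθM : (M : ℝ) ^ (-(c / 16 / (k * l))) = Real.exp (-(u / 16)) := by
    rw [hpow, hu]
    congr 1
    ring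
  have hlogN1 : k / 2 * L ≤ Real.log N := by
    have e1 := Real.log_le_log (by positivity) hlow
    rw [Real.log_rpow hM0, ← hL] at e1
    exact e1
  have hlogN2 : Real.log N ≤ 2 * L ^ 2 := by
    have e1 := Real.log_le_log hN0 hNup
    rw [Real.log_rpow hM0, ← hL] at e1
    have e2 : (1 + c) * k * L ≤ 2 * L * L := by
      apply mul_le_mul_of_nonneg_right _ hL0.le
      apply mul_le_mul _ hkL hk0.le (by norm_num)
      linarith
    linarith
  have hlogN0 : 0 ≤ Real.log N := Real.log_nonneg hN1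
  have hLC : Real.log N ^ C' ≤ Real.exp (u / 16) := by
    refine (pow_le_pow_left₀ hlogN0 hlogN2 C').trans (hev3.trans (Real.exp_le_exp.2 ?_))
    rw [hu, div_div, mul_comm (k * l) 16, div_mul_eq_mul_div, div_le_div_iff₀ (by norm_num) (by positivity)]
    have e1 : L ^ (1 / 2 : ℝ) * (k * l) ≤ L := by
      calc L ^ (1 / 2 : ℝ) * (k * l) ≤ L ^ (1 / 2 : ℝ) * L ^ (1 / 2 : ℝ) := mul_le_mul_of_nonneg_left hkl (by positivity)
        _ = L := by
            rw [← Real.rpow_add hL0]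
            norm_num
    calc c * L ^ (1 / 2 : ℝ) * (16 * (k * l)) = 16 * c * (L ^ (1 / 2 : ℝ) * (k * l)) := by ring
      _ ≤ 16 * c * L := mul_le_mul_of_nonneg_left e1 (by positivity)
      _ = c * L * 16 := by ring
  have hρ1 : ρ ≤ 1 := by
    rw [hρ]
    apply Real.exp_le_one_iff.2
    linarith
  have hρlow : (N : ℝ) ^ (-θc) ≤ ρ := by
    rw [Real.rpow_def_of_pos hN0, hρ]
    apply Real.exp_le_exp.2
    have e1 : u ≤ c * L := by
      rw [hu, div_le_iff₀ hkl0]
      exact le_mul_of_one_le_right (by positivity) hkl1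
    have e2 : c * L ≤ θc * (k / 2 * L) :=
      mul_le_mul (by linarith) (le_mul_of_one_le_left hL0.le (by linarith)) hL0.le hθc.le
    have e3 : θc * (k / 2 * L) ≤ θc * Real.log N := mul_le_mul_of_nonneg_left hlogN1 hθc.le
    linarith
  have hFL : FewLarge (fun _ : {n // n ∈ Icc 1 M} => 1 / (M : ℝ)) (fun n => v n.1) N ρ ((N : ℝ) ^ θc) := by
    intro S hS hsep
    refine (hfewF S ?_ hsep).trans (Real.rpow_le_rpow_of_exponent_le hN1 hθ₁c)
    intro α hα
    obtain ⟨q1, q2, q3⟩ := hS α hα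
    refine ⟨q1, q2, ?_⟩
    have e1 : φ (fun _ : {n // n ∈ Icc 1 M} => 1 / (M : ℝ)) (fun n => v n.1) α =
        ((1 / (M : ℝ) : ℝ) : ℂ) * ∑ n ∈ Icc 1 M, Pool.Agent.H807R2.Dav.ee ((v n : ℝ) * α) := by
      rw [mul_sum, ← Finset.sum_coe_sort (Icc 1 M) (fun n : ℕ => ((1 / (M : ℝ) : ℝ) : ℂ) *
        Pool.Agent.H807R2.Dav.ee ((v n : ℝ) * α))]
      rfl
    rw [e1, norm_mul, Complex.norm_real, Real.norm_of_nonneg (by positivity), one_div, ← div_eq_inv_mul,
      lt_div_iff₀ hM0] at q3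
    rw [hρM, mul_comm]
    exact q3
  have key := hN₀ N hNN {n // n ∈ Icc 1 M} (fun _ => 1 / (M : ℝ)) (fun n => v n.1) (fun _ => by positivity)
    (by
      rw [Finset.sum_const, Finset.card_univ, Fintype.card_coe, Nat.card_Icc, nsmul_eq_mul, Nat.add_sub_cancel]
      field_simp) (fun n => (hv n.1 n.2).2) ρ hρlow hρ1 hFL
  have hE8 : ρ ^ (1 / 8 : ℝ) * N * Real.log N ^ C' ≤ N * (M : ℝ) ^ (-(c / 16 / (k * l))) := by
    rw [hθM, hρ, ← Real.exp_mul]
    calc Real.exp (-u * (1 / 8)) * N * Real.log N ^ C' ≤ Real.exp (-u * (1 / 8)) * N * Real.exp (u / 16) :=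
          mul_le_mul_of_nonneg_left hLC (by positivity)
      _ = N * (Real.exp (-u * (1 / 8)) * Real.exp (u / 16)) := by ring
      _ = _ := by
          rw [← Real.exp_add]
          congr 2
          ring
  have hprob : ρ ^ (1 / 2 : ℝ) * Real.log N ^ C' ≤ Real.exp (-(u / 16)) := by
    rw [hρ, ← Real.exp_mul]
    calc Real.exp (-u * (1 / 2)) * Real.log N ^ C' ≤ Real.exp (-u * (1 / 2)) * Real.exp (u / 16) :=
          mul_le_mul_of_nonneg_left hLC (by positivity)
      _ = Real.exp (-u * (1 / 2) + u / 16) := (Real.exp_add _ _).symm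
      _ ≤ _ := by
          apply Real.exp_le_exp.2
          linarith
  have key2 := key.trans hprob
  rw [sum_filter, Finset.sum_coe_sort (Icc 1 M) (fun n : ℕ => if v n ≠ 0 ∧
    ¬ Asymp r N P T (ρ ^ (1 / 8 : ℝ) * N * Real.log N ^ C') η (v n) then 1 / (M : ℝ) else 0), ← sum_filter, sum_const,
    nsmul_eq_mul, mul_one_div, div_le_iff₀ hM0] at key2
  have hcard : (((Icc 1 M).filter fun n => v n ≠ 0 ∧
      ¬ Asymp r N P T (N * (M : ℝ) ^ (-(c / 16 / (k * l)))) η (v n)).card : ℝ) ≤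
      (((Icc 1 M).filter fun n => v n ≠ 0 ∧
        ¬ Asymp r N P T (ρ ^ (1 / 8 : ℝ) * N * Real.log N ^ C') η (v n)).card : ℝ) := by
    apply Nat.cast_le.2
    apply card_le_card
    intro n hn
    rw [mem_filter] at hn ⊢
    exact ⟨hn.1, hn.2.1, fun hg => hn.2.2 (asymp_mono r N P T _ _ η hE8 _ hg)⟩
  refine (hcard.trans key2).trans (le_of_eq ?_)
  rw [← hθM, mul_comm, sub_eq_add_neg, Real.rpow_add hM0, Real.rpow_one]

end Pool.Agent.Results.MP_122e00_nt.GrowingDegreeShifts
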