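import Pool.Agent.V5helper23.KP.Div

/-!
# Correlations of the divisor functions for the members of ALL progressions with almost all differences

For almost all differences `u` the following holds for EVERY arithmetic progression of shifts with the difference `u`,
even of a length which is only a power of `K`: almost all the members of the progression are shifts for which the
asymptotic formula with a saving of `K` holds; here `K` is arbitrary between a power of `log N` and a small power of `N`.
The exceptional set of differences does not depend on the progression.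

Definitions used:
* from the starting file `Pool.Agent.Results.MP_122e00_nt.PowerSavingShifts`: the divisor functions `d`, the sums `D`, the
  Ramanujan sums `ram`, the densities `κ`, the singular series `𝔖`, `Density`, `G`, `main`;
* from the starting file `Pool.Agent.Results.MP_122e00_nt.SparseRandomShifts`: `Asymp r N P T E η h`: for ALL `x ≤ N` the sum
  `D_r(x; h)` is the main term `main` up to `E` and, if `|h| ≤ N ^ (1 - η)`, it is `x T_h(log x)` up to `E + N ^ (1 - η / 4)`;
* `Pool.Agent.V5helper23.KP.LongP`, `Pool.Agent.V5helper23.KP.ShortP`: the two kinds of families of patterns;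
* `Pool.Agent.H373R2.T7.energy p n s`: the additive energy of order `p` of `s 1, ..., s n`: the number of solutions of
  `s (m 1) + ... + s (m p) = s (m' 1) + ... + s (m' p)`.

The proof: if there were many exceptional differences, the random member of the corresponding progressions would have few
large Fourier coefficients: by the inequality of Cauchy and Schwarz (`Pool.Agent.V5helper23.KP.pat_bilin`) the large ones
come from multiples of the frequency by the differences of two elements of `S`, which are near integers for many pairs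
(`Pool.Agent.V5helper23.KP.few_long`) or from large sums over a family of small energy
(`Pool.Agent.V5helper23.KP.few_short`). Then the spectral criterion of the starting file `SparseRandomShifts` applies.
-/

set_option autoImplicit false

namespace Pool.Agent.Results.MP_122e00_nt.LineFamilies

open Finset Polynomial
open Pool.Agent.Results.MP_122e00_nt.PowerSavingShifts (D ram κ 𝔖 Density G main)
open Pool.Agent.Results.MP_122e00_nt.SparseRandomShifts (Asymp)
open Pool.Agent.V5helper23.KP (LongP ShortP)

open Classical in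
/-- All the numbers `h = c(w)`, `w ∈ S`, with at most `#S / K` exceptions, are `0` or satisfy for ALL `x ≤ N`: `D_r(x; h)` is
the main term up to `N / K` and, if `|h| ≤ N ^ (1 - η)`, it is `x T_h(log x)` up to `N / K + N ^ (1 - η / 4)`. -/
def Good (r N : ℕ) (P : ℕ → ℝ[X]) (T : ℤ → ℝ[X]) (K η : ℝ) (c : ℤ → ℤ) (S : Finset ℤ) : Prop :=
  ((S.filter (fun w => c w ≠ 0 ∧ ¬ Asymp r N P T (N / K) η (c w))).card : ℝ) ≤ S.card / K

open Classical in
/-- The number of the `1 ≤ m ≤ n` for which there is ANY integer `a` such that the pattern `a + b(w) + s(m) w`, `w ∈ S`,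
lies in `[-B₀ N, B₀ N]` and does not have the property `Good`. -/
noncomputable def exceptions (r B₀ N : ℕ) (P : ℕ → ℝ[X]) (T : ℤ → ℝ[X]) (K η : ℝ) (n : ℕ) (b : ℤ → ℤ) (s : ℕ → ℤ)
    (S : Finset ℤ) : ℕ :=
  ((Icc 1 n).filter (fun m => ∃ a : ℤ, (∀ w ∈ S, |a + b w + s m * w| ≤ B₀ * N) ∧
    ¬ Good r N P T K η (fun w => a + b w + s m * w) S)).card

/-- Let `r ≥ 2`. There are polynomials `P_q` (`q ≥ 1`) and `T_h` (`h ≠ 0`) with the following properties.

(0) As in the starting files: `P_q` is the density of `d_r(n) e(b n / q)`, `(b, q) = 1`, with a power saving; for `h ≠ 0` the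
series `G_h(u, v) = ∑ c_q(h) P_q(u) P_q(v)` satisfies `T_h(u) + T_h'(u) = G_h(u, u)`, and `T_h` has degree `2 r - 2` and
leading coefficient `𝔖_r(h) / ((r - 1)!) ^ 2`.

(1) There is `B`, and for all `C` and `p` there are `B'`, `A` and `θ > 0` such that for all `B₀`, all `0 < η ≤ 1`, every
large `N` and EVERY real `K` with `log ^ A N ≤ K ≤ N ^ θ` the following holds.

Consider the patterns `a + b(w) + s(m) w`, `w ∈ S`, for `1 ≤ m ≤ n`, where the translation `a` and the function `b` are
arbitrary and the differences `s(m)` and the set `S` of integers are of one of the following kinds: either (`LongP`) the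
differences are the elements of an interval of `n ≥ K ^ B'` integers, and `S`, with at least `K ^ B` elements, is a subset
of relative density at least `K ^ (-C)` of an interval of at least `N / (n K ^ C)` integers; or (`ShortP`) the differences
`|s(m)| ≤ N` are arbitrary integers of nearly minimal additive energy of order `p` (by (2) one may take the values
`s(m) = f(m)` of any nonconstant polynomial, `n` at least `(N / K ^ C) ^ (1 / deg f)`) and `S` has at least `K ^ B` elements
and diameter at most `2 K ^ C`. For `b = 0`, `S = {1, ..., l}` the patterns are the arithmetic progressions with `l` terms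
and the difference `s(m)`; `l` may be as small as `K ^ B`.

For all but at most `n / K` of the `m ≤ n` the following holds for EVERY integer `a` for which the pattern lies in
`[-B₀ N, B₀ N]`: all the members `h` of the pattern, with at most `#S / K` exceptions, are `0` or satisfy for ALL `x ≤ N`:
`D_r(x; h) = ∑ G_h(log n, log(n + h)) + O(N / K)` (the sum over `n ≤ x` with `n + h ≥ 1`) and, if `|h| ≤ N ^ (1 - η)`,
`D_r(x; h) = x T_h(log x) + O(N / K + N ^ (1 - η / 4))`, with implied constants `1`.

(2) The values of a nonconstant polynomial have nearly minimal additive energy of some order. -/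
theorem result (r : ℕ) (hr : 2 ≤ r) : ∃ (P : ℕ → ℝ[X]) (T : ℤ → ℝ[X]),
    (Density r P ∧ ∀ q, 1 ≤ q → (P q).natDegree = r - 1 ∧ (P q).leadingCoeff = κ (r - 1) q / ((r - 1).factorial : ℝ)) ∧
    (∀ h : ℤ, h ≠ 0 → (∀ u v : ℝ, Summable (fun q : ℕ => (ram (q + 1) h : ℝ) * ((P (q + 1)).eval u * (P (q + 1)).eval v))) ∧
      (∀ u : ℝ, (T h).eval u + (derivative (T h)).eval u = G P h u u) ∧
      (T h).natDegree = 2 * r - 2 ∧ (T h).leadingCoeff = 𝔖 r h / ((r - 1).factorial : ℝ) ^ 2) ∧
    (∃ B : ℕ, ∀ C p : ℕ, ∃ (B' A : ℕ) (θ : ℝ), 0 < θ ∧ ∀ (B₀ : ℕ) (η : ℝ), 0 < η → η ≤ 1 → ∃ N₀ : ℕ, ∀ N : ℕ, N₀ ≤ N →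
      ∀ K : ℝ, Real.log N ^ A ≤ K → K ≤ (N : ℝ) ^ θ → ∀ (n : ℕ) (s : ℕ → ℤ) (S : Finset ℤ),
        (LongP K B B' C N n s S ∨ ShortP K p B C N n s S) → ∀ b : ℤ → ℤ,
        (exceptions r B₀ N P T K η n b s S : ℝ) ≤ n / K) ∧
    (∀ f : Polynomial ℤ, 1 ≤ f.natDegree → ∃ (p : ℕ) (K₀ : ℝ), ∀ (K : ℝ) (C N n : ℕ), K₀ ≤ K →
      (N : ℝ) ≤ K ^ C * (n : ℝ) ^ f.natDegree →
      (Pool.Agent.H373R2.T7.energy p n (fun m => f.eval (m : ℤ)) : ℝ) * N ≤ K ^ (C + 1) * (n : ℝ) ^ (2 * p)) := by
  classical
  obtain ⟨P, T, h0, h1, ⟨θc, hθc, C', hcrit⟩, -, -⟩ := Pool.Agent.Results.MP_122e00_nt.SparseRandomShifts.result r hr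
  refine ⟨P, T, ⟨h0.1, h0.2.1⟩, h1, ?_, Pool.Agent.V5helper23.KP.poly_energyP⟩
  obtain ⟨B, hB⟩ := Pool.Agent.V5helper23.KP.div_core r P T θc hθc C' hcrit
  refine ⟨B, fun C p => ?_⟩
  obtain ⟨B', A, θ, hθ, h2⟩ := hB C p
  refine ⟨B', A, θ, hθ, fun B₀ η hη hη1 => ?_⟩
  obtain ⟨N₀, h3⟩ := h2 B₀ η hη hη1
  refine ⟨N₀, fun N hN K hK1 hK2 n s S hfam b => ?_⟩
  refine h3 N hN K hK1 hK2 n s S hfam b _ (filter_subset _ _) ?_
  intro m hm
  rw [mem_filter] at hm
  obtain ⟨_, a, g1, g2⟩ := hm
  unfold Good at g2
  push Not at g2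
  exact ⟨a, g1, g2⟩

end Pool.Agent.Results.MP_122e00_nt.LineFamilies
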